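import Pool.Agent.Q51.EB.Stm

/-!
# Project EB, job APX: approximation and finiteness of the classes of `ℚ_p[X]/(f)` modulo squares
-/

set_option autoImplicit false
set_option linter.unusedSectionVars false
set_option linter.style.haveILetI false

namespace Pool.Agent.Q58.EB

open Polynomial Finset Pool.Agent.Q51.EL Pool.Agent.Q51.EB
open scoped Topology

section near

variable {p : ℕ} [Fact p.Prime]

/-- near `1` every element is the square of a unit -/
theorem sq_near (A : Type) [NormedCommRing A] [NormedAlgebra ℚ_[p] A] [Module.Finite ℚ_[p] A] :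
    ∀ᶠ z in 𝓝 (1 : A), ∃ c : A, IsUnit c ∧ z = c ^ 2 := by
  have hcomp : CompleteSpace A := FiniteDimensional.complete ℚ_[p] A
  have h2 : (2 : ℚ_[p]) ≠ 0 := two_ne_zero
  set e : A ≃L[ℚ_[p]] A :=
    (LinearEquiv.smulOfNeZero ℚ_[p] A (2 : ℚ_[p]) h2).toContinuousLinearEquiv with he
  have h1 : HasStrictFDerivAt (fun x : A => x * x) (e : A →L[ℚ_[p]] A) 1 := by
    have h := (hasStrictFDerivAt_id (𝕜 := ℚ_[p]) (1 : A)).mul (hasStrictFDerivAt_id (1 : A))
    have h' : ((id (1 : A)) • ContinuousLinearMap.id ℚ_[p] A +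
        (id (1 : A)) • ContinuousLinearMap.id ℚ_[p] A) = (e : A →L[ℚ_[p]] A) := by
      ext x
      simp [he, two_smul]
    rw [h'] at h
    exact h
  have h3 := h1.map_nhds_eq_of_equiv
  rw [mul_one] at h3
  have h4 : {x : A | IsUnit x} ∈ 𝓝 (1 : A) := by
    have := Units.nhds (1 : Aˣ)
    simpa using this
  have h5 := Filter.image_mem_map (m := fun x : A => x * x) h4
  rw [h3] at h5
  refine Filter.mem_of_superset h5 ?_
  rintro z ⟨c, hc, rfl⟩
  exact ⟨c, hc, (sq c).symm⟩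

/-- the same without a norm on the algebra -/
theorem near (A : Type) [CommRing A] [Algebra ℚ_[p] A] [Module.Finite ℚ_[p] A] {n : ℕ}
    (φ : (Fin n → ℚ_[p]) →ₗ[ℚ_[p]] A) (y0 : Fin n → ℚ_[p]) (h : φ y0 = 1) :
    ∀ᶠ y in 𝓝 y0, ∃ c : A, IsUnit c ∧ φ y = c ^ 2 := by
  classical
  set b := Module.finBasis ℚ_[p] A with hb
  letI i1 : NormedRing (Matrix (Fin (Module.finrank ℚ_[p] A)) (Fin (Module.finrank ℚ_[p] A)) ℚ_[p]) :=
    Matrix.linftyOpNormedRing
  letI i2 : NormedAlgebra ℚ_[p]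
      (Matrix (Fin (Module.finrank ℚ_[p] A)) (Fin (Module.finrank ℚ_[p] A)) ℚ_[p]) :=
    Matrix.linftyOpNormedAlgebra
  letI i3 : NormedCommRing A := NormedCommRing.induced A
    (Matrix (Fin (Module.finrank ℚ_[p] A)) (Fin (Module.finrank ℚ_[p] A)) ℚ_[p])
    (Algebra.leftMulMatrix b) (Algebra.leftMulMatrix_injective b)
  letI i4 : NormedAlgebra ℚ_[p] A := NormedAlgebra.induced ℚ_[p] A
    (Matrix (Fin (Module.finrank ℚ_[p] A)) (Fin (Module.finrank ℚ_[p] A)) ℚ_[p])
    (Algebra.leftMulMatrix b)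
  have hcont : Continuous φ := φ.continuous_of_finiteDimensional
  have h1 := sq_near (p := p) A
  rw [← h] at h1
  exact hcont.continuousAt.eventually h1

/-- finitely many classes modulo squares: fields -/
theorem fin_field (K : Type) [Field K] [Algebra ℚ_[p] K] [Module.Finite ℚ_[p] K] :
    ∃ R : Set K, R.Finite ∧ (∀ ρ ∈ R, ρ ≠ 0) ∧ ∀ x : K, x ≠ 0 → ∃ ρ ∈ R, ∃ c : K, c ≠ 0 ∧
      x = ρ * c ^ 2 := by
  classical
  set b := Module.finBasis ℚ_[p] K with hb
  set φ : (Fin (Module.finrank ℚ_[p] K) → ℚ_[p]) ≃ₗ[ℚ_[p]] K := b.equivFun.symm with hφ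
  have hp1 : (1 : ℝ) < p := by exact_mod_cast (Fact.out : p.Prime).one_lt
  have hp0 : (0 : ℝ) < p := by linarith
  have hp2 : (1 : ℝ) < (p : ℝ) ^ 2 := one_lt_pow₀ hp1 two_ne_zero
  set S : Set (Fin (Module.finrank ℚ_[p] K) → ℚ_[p]) :=
    Metric.closedBall 0 1 ∩ {y | ((p : ℝ) ^ 2)⁻¹ ≤ ‖y‖} with hS
  have hScomp : IsCompact S := by
    apply (isCompact_closedBall _ _).inter_right
    exact isClosed_le continuous_const continuous_norm
  have hSne : ∀ y ∈ S, φ y ≠ 0 := by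
    intro y hy h0
    have h1 : y = 0 := by
      apply φ.injective
      rw [h0, map_zero]
    have h2 : ((p : ℝ) ^ 2)⁻¹ ≤ ‖y‖ := hy.2
    rw [h1, norm_zero] at h2
    have : 0 < ((p : ℝ) ^ 2)⁻¹ := by positivity
    linarith
  have hloc : ∀ y ∈ S, {z | ∃ c : K, IsUnit c ∧ φ z * (φ y)⁻¹ = c ^ 2} ∈ 𝓝 y := by
    intro y hy
    have h1 := near (p := p) K ((LinearMap.mulRight ℚ_[p] (φ y)⁻¹).comp φ.toLinearMap) y
      (by simp [mul_inv_cancel₀ (hSne y hy)])
    exact h1
  obtain ⟨t, htS, ht⟩ := hScomp.elim_nhds_subcover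
    (fun y => {z | ∃ c : K, IsUnit c ∧ φ z * (φ y)⁻¹ = c ^ 2}) hloc
  refine ⟨φ '' (t : Set _), t.finite_toSet.image _, ?_, ?_⟩
  · rintro ρ ⟨y, hy, rfl⟩
    exact hSne y (htS y hy)
  · intro x hx
    obtain ⟨y, rfl⟩ := φ.surjective x
    have hy0 : y ≠ 0 := by
      rintro rfl
      exact hx (map_zero _)
    obtain ⟨k, hk1, hk2⟩ := exists_mem_Ioc_zpow (norm_pos_iff.2 hy0) hp2
    set μ : ℚ_[p] := (p : ℚ_[p]) ^ (k + 1) with hμ
    have hpn : (p : ℚ_[p]) ≠ 0 := by exact_mod_cast (Fact.out : p.Prime).ne_zero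
    have hμ0 : μ ≠ 0 := zpow_ne_zero _ hpn
    have hμn : ‖μ ^ 2‖ = (((p : ℝ) ^ 2) ^ (k + 1))⁻¹ := by
      rw [hμ, norm_pow, norm_zpow, Padic.norm_p, inv_zpow, inv_pow, ← zpow_natCast, ← zpow_natCast,
        ← zpow_mul, ← zpow_mul, mul_comm]
    have hyS : μ ^ 2 • y ∈ S := by
      have hb0 : 0 < ((p : ℝ) ^ 2) ^ (k + 1) := by positivity
      constructor
      · rw [mem_closedBall_zero_iff, norm_smul, hμn, inv_mul_le_iff₀ hb0, mul_one]
        exact hk2
      · show ((p : ℝ) ^ 2)⁻¹ ≤ ‖μ ^ 2 • y‖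
        rw [norm_smul, hμn, le_inv_mul_iff₀ hb0]
        rw [zpow_add_one₀ (by positivity : ((p : ℝ) ^ 2) ≠ 0), mul_assoc,
          mul_inv_cancel₀ (by positivity : ((p : ℝ) ^ 2) ≠ 0), mul_one]
        exact hk1.le
    have h6 := ht hyS
    simp only [Set.mem_iUnion] at h6
    obtain ⟨y', hy't, c, hc, hcc⟩ := h6
    have hne := hSne y' (htS y' hy't)
    have hμK : algebraMap ℚ_[p] K μ ≠ 0 := by
      rw [Ne, map_eq_zero]
      exact hμ0
    refine ⟨φ y', ⟨y', hy't, rfl⟩, c * (algebraMap ℚ_[p] K μ)⁻¹,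
      mul_ne_zero hc.ne_zero (inv_ne_zero hμK), ?_⟩
    rw [map_smul, Algebra.smul_def, map_pow] at hcc
    rw [mul_pow, ← hcc]
    field_simp

/-- finitely many classes modulo squares: reduced algebras -/
theorem fin_alg (A : Type) [CommRing A] [Algebra ℚ_[p] A] [Module.Finite ℚ_[p] A] [IsReduced A] :
    ∃ R : Set A, R.Finite ∧ (∀ ρ ∈ R, IsUnit ρ) ∧ ∀ x : A, IsUnit x → ∃ ρ ∈ R, ∃ c : A, IsUnit c ∧
      x = ρ * c ^ 2 := by
  classical
  have hart : IsArtinianRing A := IsArtinianRing.of_finite ℚ_[p] A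
  set e := IsArtinianRing.equivPi A with he
  have hfinM : Finite (MaximalSpectrum A) := inferInstance
  have hfield : ∀ I : MaximalSpectrum A, ∃ R : Set (A ⧸ I.asIdeal), R.Finite ∧
      (∀ ρ ∈ R, IsUnit ρ) ∧ ∀ x : A ⧸ I.asIdeal, IsUnit x → ∃ ρ ∈ R, ∃ c : A ⧸ I.asIdeal, IsUnit c ∧
      x = ρ * c ^ 2 := by
    intro I
    have := I.isMaximal
    letI : Field (A ⧸ I.asIdeal) := Ideal.Quotient.field I.asIdeal
    obtain ⟨R, h1, h2, h3⟩ := fin_field (p := p) (A ⧸ I.asIdeal)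
    refine ⟨R, h1, fun ρ hρ => (h2 ρ hρ).isUnit, fun x hx => ?_⟩
    obtain ⟨ρ, hρ, c, hc, hxc⟩ := h3 x hx.ne_zero
    exact ⟨ρ, hρ, c, hc.isUnit, hxc⟩
  choose R hR1 hR2 hR3 using hfield
  refine ⟨e.symm '' (Set.univ.pi R), (Set.Finite.pi hR1).image _, ?_, ?_⟩
  · rintro _ ⟨ρ, hρ, rfl⟩
    apply IsUnit.map
    rw [Pi.isUnit_iff]
    intro I
    exact hR2 I _ (hρ I (Set.mem_univ _))
  · intro x hx
    have hx' : ∀ I, IsUnit (e x I) := Pi.isUnit_iff.1 (hx.map e)
    choose ρ hρ c hc hxc using fun I => hR3 I (e x I) (hx' I)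
    refine ⟨e.symm ρ, ⟨ρ, fun I _ => hρ I, rfl⟩, e.symm c, ?_, ?_⟩
    · apply IsUnit.map
      rw [Pi.isUnit_iff]
      exact hc
    · apply e.injective
      rw [map_mul, map_pow, AlgEquiv.apply_symm_apply, AlgEquiv.apply_symm_apply]
      funext I
      exact hxc I

end near

/-- coprime iff the class is invertible -/
theorem copr_unit {F : Type} [Field F] (P a : F[X]) :
    IsCoprime P a ↔ IsUnit (AdjoinRoot.mk P a) := by
  constructor
  · rintro ⟨u, w, h⟩
    have h1 := congrArg (AdjoinRoot.mk P) h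
    rw [map_add, map_mul, AdjoinRoot.mk_self, mul_zero, zero_add, map_mul, map_one] at h1
    exact isUnit_iff_exists_inv'.2 ⟨_, h1⟩
  · intro h
    obtain ⟨w', hw'⟩ := h.exists_right_inv
    obtain ⟨w, rfl⟩ := AdjoinRoot.mk_surjective w'
    rw [← map_mul, ← map_one (AdjoinRoot.mk P), AdjoinRoot.mk_eq_mk] at hw'
    obtain ⟨u, hu⟩ := hw'
    exact ⟨-u, w, by linear_combination hu⟩

theorem root_dvd_map {f : ℤ[X]} (F : Type) [Field F] [CharZero F] {a : ℚ[X]} (h : up f ℚ ∣ a) :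
    up f F ∣ a.map (Rat.castHom F) := by
  have h1 := Polynomial.map_dvd (Rat.castHom F) h
  have h2 : (up f ℚ).map (Rat.castHom F) = up f F := by
    rw [up, Polynomial.map_map]
    congr 1
    exact RingHom.ext_int _ _
  rwa [h2] at h1

theorem sep_up {f : ℤ[X]} (hf : Irreducible (f.map (Int.castRingHom ℚ))) (F : Type) [Field F]
    [CharZero F] : (up f F).Separable := by
  have h1 : (up f ℚ).Separable := hf.separable
  have h2 : (up f ℚ).map (Rat.castHom F) = up f F := by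
    rw [up, Polynomial.map_map]
    congr 1
    exact RingHom.ext_int _ _
  rw [← h2]
  exact h1.map

theorem deg_up {f : ℤ[X]} (hf : Irreducible (f.map (Int.castRingHom ℚ))) (F : Type) [Field F]
    [CharZero F] : 0 < (up f F).natDegree := by
  have h1 : 0 < (up f ℚ).natDegree := hf.natDegree_pos
  have h2 : (up f ℚ).map (Rat.castHom F) = up f F := by
    rw [up, Polynomial.map_map]
    congr 1
    exact RingHom.ext_int _ _
  rw [← h2, natDegree_map]
  exact h1

/-- the polynomial with given coefficients, as a linear map to the algebra -/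
noncomputable def phi {F : Type} [Field F] (P a : F[X]) (n : ℕ) :
    (Fin n → F) →ₗ[F] AdjoinRoot P where
  toFun y := AdjoinRoot.mk P (∑ i : Fin n, C (y i) * X ^ (i : ℕ)) * AdjoinRoot.mk P a
  map_add' y z := by
    simp only [Pi.add_apply, map_add, add_mul, Finset.sum_add_distrib]
  map_smul' c y := by
    simp only [Pi.smul_apply, smul_eq_mul, RingHom.id_apply, Algebra.smul_def]
    rw [← mul_assoc]
    congr 1
    rw [AdjoinRoot.algebraMap_eq, ← AdjoinRoot.mk_C, ← map_mul, Finset.mul_sum]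
    congr 1
    refine Finset.sum_congr rfl fun i _ => ?_
    rw [C_mul, mul_assoc]

theorem apx (h1 : S_NRM) : S_APX := by
  intro f hf p hp
  set P := up f ℚ_[p] with hP
  have hsep : P.Separable := sep_up hf ℚ_[p]
  have hP0 : P ≠ 0 := hsep.ne_zero
  have hdeg : 0 < P.natDegree := deg_up hf ℚ_[p]
  have hfin : Module.Finite ℚ_[p] (AdjoinRoot P) := (AdjoinRoot.powerBasis hP0).finite
  have hnt : Nontrivial (AdjoinRoot P) := by
    apply AdjoinRoot.nontrivial
    intro h0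
    rw [natDegree_eq_zero_iff_degree_le_zero.2 h0.le] at hdeg
    exact lt_irrefl _ hdeg
  constructor
  · intro a ha
    have hau := (copr_unit P a).1 ha
    obtain ⟨w', hw'⟩ := hau.exists_right_inv
    obtain ⟨w, rfl⟩ := AdjoinRoot.mk_surjective w'
    set n := P.natDegree with hn
    set y0 : Fin n → ℚ_[p] := fun i => (a % P).coeff i with hy0
    have hsum : ∑ i : Fin n, C (y0 i) * X ^ (i : ℕ) = a % P := by
      rw [Fin.sum_univ_eq_sum_range (fun i => C ((a % P).coeff i) * X ^ i) n]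
      have h5 : (a % P).natDegree < n := by
        apply natDegree_mod_lt
        exact hdeg.ne'
      exact (as_sum_range_C_mul_X_pow' _ h5).symm
    have hphi : phi P w n y0 = 1 := by
      show AdjoinRoot.mk P (∑ i : Fin n, C (y0 i) * X ^ (i : ℕ)) * AdjoinRoot.mk P w = 1
      rw [hsum]
      have : AdjoinRoot.mk P (a % P) = AdjoinRoot.mk P a := by
        rw [AdjoinRoot.mk_eq_mk]
        exact ⟨-(a / P), by linear_combination (EuclideanDomain.div_add_mod a P)⟩
      rw [this, hw']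
    have hnear := near (p := p) (AdjoinRoot P) (phi P w n) y0 hphi
    obtain ⟨δ, hδ, hball⟩ := Metric.eventually_nhds_iff.1 hnear
    choose q hq using fun i => Padic.rat_dense p (y0 i) hδ
    obtain ⟨c, hc, hcq⟩ := hball (y := fun i => (q i : ℚ_[p])) (by
      rw [dist_comm, dist_pi_lt_iff hδ]
      intro i
      rw [dist_eq_norm]
      exact hq i)
    set α : ℚ[X] := ∑ i : Fin n, C (q i) * X ^ (i : ℕ) with hα
    have hαm : α.map (Rat.castHom ℚ_[p]) = ∑ i : Fin n, C (q i : ℚ_[p]) * X ^ (i : ℕ) := by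
      rw [hα, Polynomial.map_sum]
      refine Finset.sum_congr rfl fun i _ => ?_
      simp
    have hcq' : AdjoinRoot.mk P (α.map (Rat.castHom ℚ_[p])) * AdjoinRoot.mk P w = c ^ 2 := by
      rw [hαm]
      exact hcq
    obtain ⟨d', hd'⟩ := hc.exists_right_inv
    obtain ⟨d, rfl⟩ := AdjoinRoot.mk_surjective d'
    refine ⟨α, d, ?_, ?_, ?_⟩
    · have hirr : Irreducible (up f ℚ) := hf
      rw [hirr.coprime_iff_not_dvd]
      intro hdvd
      have h6 := root_dvd_map ℚ_[p] hdvd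
      rw [← AdjoinRoot.mk_eq_zero] at h6
      rw [h6, zero_mul] at hcq'
      exact (hc.pow 2).ne_zero hcq'.symm
    · rw [copr_unit]
      exact isUnit_iff_exists_inv'.2 ⟨_, hd'⟩
    · rw [← AdjoinRoot.mk_eq_mk, map_mul, map_pow]
      have h7 : AdjoinRoot.mk P (α.map (Rat.castHom ℚ_[p])) = AdjoinRoot.mk P a * c ^ 2 := by
        rw [← hcq']
        linear_combination (-(AdjoinRoot.mk P (α.map (Rat.castHom ℚ_[p])))) * hw'
      rw [h7]
      linear_combination (-(AdjoinRoot.mk P a)) * (c * AdjoinRoot.mk P d + 1) * hd'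
  · have hsq : Squarefree P := hsep.squarefree
    have hred : IsReduced (AdjoinRoot P) := by
      have h8 : (Ideal.span {P}).IsRadical := (isRadical_iff_span_singleton).1 hsq.isRadical
      exact (Ideal.isRadical_iff_quotient_reduced _).1 h8
    obtain ⟨R, hR1, hR2, hR3⟩ := fin_alg (p := p) (AdjoinRoot P)
    have hsurj : ∀ z : AdjoinRoot P, ∃ g : ℚ_[p][X], AdjoinRoot.mk P g = z :=
      fun z => AdjoinRoot.mk_surjective z
    choose g hg using hsurj
    refine ⟨(hR1.image g).toFinset, ?_, ?_⟩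
    · intro ρ hρ
      rw [Set.Finite.mem_toFinset] at hρ
      obtain ⟨z, hz, rfl⟩ := hρ
      rw [copr_unit, hg]
      exact hR2 z hz
    · intro a ha
      obtain ⟨z, hz, c, hc, hac⟩ := hR3 (AdjoinRoot.mk P a) ((copr_unit P a).1 ha)
      refine ⟨g z, ?_, g c, ?_, ?_⟩
      · rw [Set.Finite.mem_toFinset]
        exact ⟨z, hz, rfl⟩
      · rw [copr_unit, hg]
        exact hc
      · rw [← AdjoinRoot.mk_eq_mk, map_mul, map_pow, hg, hg]
        exact hac

end Pool.Agent.Q58.EB
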