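import Pool.Agent.Q51.EB.Stm

/-!
# Project EB, job APXR: finiteness of the classes of `ℝ[X]/(f)` modulo squares
-/

set_option autoImplicit false

namespace Pool.Agent.Q58.EB

open Polynomial Finset Pool.Agent.Q51.EL Pool.Agent.Q51.EB

/-- an irreducible polynomial divides what vanishes at its root -/
theorem dvd_of_root {q g : ℝ[X]} (hq : Irreducible q) {A : Type} [CommRing A] [Nontrivial A]
    [Algebra ℝ A] (z : A) (h1 : aeval z q = 0) (h2 : aeval z g = 0) : q ∣ g := by
  by_contra h
  obtain ⟨s, t, hst⟩ := hq.coprime_iff_not_dvd.2 h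
  have h3 := congrArg (aeval z) hst
  rw [map_add, map_mul, map_mul, h1, h2, mul_zero, mul_zero, add_zero, map_one] at h3
  exact zero_ne_one h3

/-- square roots modulo an irreducible polynomial -/
theorem sq_irr {q a : ℝ[X]} (hq : Irreducible q) (h : ∀ θ : ℝ, q.IsRoot θ → 0 < a.eval θ) :
    ∃ c : ℝ[X], q ∣ a - c ^ 2 := by
  by_cases hr : ∃ θ : ℝ, q.IsRoot θ
  · obtain ⟨θ, hθ⟩ := hr
    refine ⟨C (Real.sqrt (a.eval θ)), dvd_of_root hq θ (by rw [coe_aeval_eq_eval]; exact hθ) ?_⟩
    rw [coe_aeval_eq_eval, eval_sub, eval_pow, eval_C, Real.sq_sqrt (h θ hθ).le, sub_self]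
  · push Not at hr
    have hdeg : (q.map (algebraMap ℝ ℂ)).degree ≠ 0 := by
      rw [degree_map]
      intro h0
      exact hq.not_isUnit (isUnit_iff_degree_eq_zero.2 h0)
    obtain ⟨z, hz⟩ := IsAlgClosed.exists_root (q.map (algebraMap ℝ ℂ)) hdeg
    have hz' : aeval z q = 0 := by
      rw [IsRoot, eval_map_algebraMap] at hz
      exact hz
    have him : z.im ≠ 0 := by
      intro h0
      have h1 : z = (z.re : ℂ) := by
        apply Complex.ext
        · simp
        · simp [h0]
      apply hr z.re
      rw [h1] at hz'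
      have h2 : aeval ((z.re : ℝ) : ℂ) q = ((q.eval z.re : ℝ) : ℂ) := by
        have := aeval_algebraMap_apply ℂ z.re q
        rw [coe_aeval_eq_eval] at this
        exact this
      rw [h2] at hz'
      exact_mod_cast hz'
    obtain ⟨s, hs⟩ := IsAlgClosed.exists_pow_nat_eq (aeval z a : ℂ) (n := 2) (by norm_num)
    refine ⟨C (s.re - s.im / z.im * z.re) + C (s.im / z.im) * X, dvd_of_root hq z hz' ?_⟩
    have h3 : aeval z (C (s.re - s.im / z.im * z.re) + C (s.im / z.im) * X : ℝ[X]) = s := by
      rw [map_add, map_mul, aeval_C, aeval_C, aeval_X]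
      apply Complex.ext
      · simp
      · simp
        field_simp
    rw [map_sub, map_pow, h3, hs, sub_self]

/-- square roots modulo a squarefree polynomial -/
theorem sq_sqfree : ∀ (n : ℕ) (P : ℝ[X]), P.natDegree = n → Squarefree P → ∀ a : ℝ[X],
    (∀ θ : ℝ, P.IsRoot θ → 0 < a.eval θ) → ∃ c : ℝ[X], P ∣ a - c ^ 2 := by
  intro n
  induction n using Nat.strong_induction_on with
  | _ n ih =>
    intro P hn hP a ha
    have hP0 : P ≠ 0 := hP.ne_zero
    by_cases hu : IsUnit P
    · exact ⟨0, hu.dvd⟩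
    · obtain ⟨q, hq, P', rfl⟩ := WfDvdMonoid.exists_irreducible_factor hu hP0
      have hP'0 : P' ≠ 0 := right_ne_zero_of_mul hP0
      have hcop : IsCoprime q P' := by
        rw [hq.coprime_iff_not_dvd]
        rintro ⟨r, rfl⟩
        exact hq.not_isUnit (hP q ⟨r, by ring⟩)
      have hqd : 0 < q.natDegree := by
        rw [Nat.pos_iff_ne_zero]
        intro h0
        exact hq.not_isUnit (isUnit_iff_degree_eq_zero.2 (by
          rw [degree_eq_natDegree hq.ne_zero, h0]
          rfl))
      have hlt : P'.natDegree < n := by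
        rw [← hn, natDegree_mul hq.ne_zero hP'0]
        omega
      obtain ⟨c', hc'⟩ := ih _ hlt P' rfl (hP.of_mul_right) a (fun θ hθ => ha θ (by
        rw [IsRoot, eval_mul, IsRoot.eq_zero hθ, mul_zero]))
      obtain ⟨d, hd⟩ := sq_irr hq (a := a) (fun θ hθ => ha θ (by
        rw [IsRoot, eval_mul, IsRoot.eq_zero hθ, zero_mul]))
      obtain ⟨s, t, hst⟩ := hcop
      refine ⟨c' * (s * q) + d * (t * P'), ?_⟩
      refine IsCoprime.mul_dvd ⟨s, t, hst⟩ ?_ ?_
      · have h1 : a - (c' * (s * q) + d * (t * P')) ^ 2 =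
            (a - d ^ 2) + q * (s * (d - c') * (d + (c' * (s * q) + d * (t * P')))) := by
          have h2 : t * P' = 1 - s * q := by rw [← hst]; ring
          rw [h2]
          ring
        rw [h1]
        exact dvd_add hd (dvd_mul_right _ _)
      · have h1 : a - (c' * (s * q) + d * (t * P')) ^ 2 =
            (a - c' ^ 2) + P' * (t * (c' - d) * (c' + (c' * (s * q) + d * (t * P')))) := by
          have h2 : s * q = 1 - t * P' := by rw [← hst]; ring
          rw [h2]
          ring
        rw [h1]
        exact dvd_add hc' (dvd_mul_right _ _)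

theorem eval_ne_zero {P a : ℝ[X]} (h : IsCoprime P a) {θ : ℝ} (hθ : P.IsRoot θ) :
    a.eval θ ≠ 0 := by
  obtain ⟨s, t, hst⟩ := h
  intro h0
  have := congrArg (eval θ) hst
  rw [eval_add, eval_mul, eval_mul, IsRoot.eq_zero hθ, h0, mul_zero, mul_zero, add_zero,
    eval_one] at this
  exact zero_ne_one this

theorem apxr : S_APXR := by
  classical
  intro f hf
  set P := up f ℝ with hP
  have hsep : P.Separable := by
    have h1 : (f.map (Int.castRingHom ℚ)).Separable := hf.separable
    have h2 := h1.map (f := Rat.castHom ℝ)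
    rw [Polynomial.map_map] at h2
    have h3 : (Rat.castHom ℝ).comp (Int.castRingHom ℚ) = Int.castRingHom ℝ :=
      RingHom.ext_int _ _
    rw [h3] at h2
    exact h2
  have hsq : Squarefree P := hsep.squarefree
  have hP0 : P ≠ 0 := hsq.ne_zero
  set Z : Finset ℝ := P.roots.toFinset with hZ
  have hZm : ∀ θ : ℝ, θ ∈ Z ↔ P.IsRoot θ := by
    intro θ
    rw [hZ, Multiset.mem_toFinset, mem_roots hP0]
  -- representatives
  set pat : Finset ℝ → ℝ[X] → Prop := fun T ρ =>
    IsCoprime P ρ ∧ ∀ θ ∈ Z, (ρ.eval θ < 0 ↔ θ ∈ T) with hpat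
  set rep : Finset ℝ → ℝ[X] := fun T => if h : ∃ ρ, pat T ρ then h.choose else 1 with hrep
  have hrep1 : ∀ T, IsCoprime P (rep T) := by
    intro T
    simp only [hrep]
    split_ifs with h
    · exact h.choose_spec.1
    · exact isCoprime_one_right
  refine ⟨Z.powerset.image rep, ?_, ?_⟩
  · intro ρ hρ
    rw [Finset.mem_image] at hρ
    obtain ⟨T, _, rfl⟩ := hρ
    exact hrep1 T
  · intro a ha
    set T : Finset ℝ := Z.filter fun θ => a.eval θ < 0 with hT
    have hex : ∃ ρ, pat T ρ := ⟨a, ha, fun θ hθ => by rw [hT, Finset.mem_filter]; tauto⟩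
    have hspec : pat T (rep T) := by
      simp only [hrep]
      rw [dif_pos hex]
      exact hex.choose_spec
    refine ⟨rep T, Finset.mem_image.2 ⟨T, Finset.mem_powerset.2 (Finset.filter_subset _ _), rfl⟩,
      ?_⟩
    obtain ⟨s, t, hst⟩ := hspec.1
    have hpos : ∀ θ : ℝ, P.IsRoot θ → 0 < (a * t).eval θ := by
      intro θ hθ
      have h1 := congrArg (eval θ) hst
      rw [eval_add, eval_mul, eval_mul, IsRoot.eq_zero hθ, mul_zero, zero_add, eval_one] at h1
      have h2 := eval_ne_zero ha hθ
      have h3 := eval_ne_zero hspec.1 hθ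
      have h4 := hspec.2 θ ((hZm θ).2 hθ)
      have h5 : (rep T).eval θ < 0 ↔ a.eval θ < 0 := by
        rw [h4, hT, Finset.mem_filter]
        exact ⟨fun h => h.2, fun h => ⟨(hZm θ).2 hθ, h⟩⟩
      rw [eval_mul]
      have h6 : 0 < a.eval θ * (rep T).eval θ := by
        rcases lt_or_gt_of_ne h2 with h7 | h7
        · exact mul_pos_of_neg_of_neg h7 (h5.2 h7)
        · have h8 : 0 < (rep T).eval θ := by
            rcases lt_or_gt_of_ne h3 with h9 | h9
            · exact absurd (h5.1 h9) (not_lt.2 h7.le)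
            · exact h9
          exact mul_pos h7 h8
      have h7 : t.eval θ ≠ 0 := by
        intro h0
        rw [h0, zero_mul] at h1
        exact zero_ne_one h1
      have h8 : a.eval θ * t.eval θ = (a.eval θ * (rep T).eval θ) * (t.eval θ) ^ 2 := by
        calc a.eval θ * t.eval θ = a.eval θ * t.eval θ * (t.eval θ * (rep T).eval θ) := by
              rw [h1, mul_one]
          _ = _ := by ring
      rw [h8]
      positivity
    obtain ⟨c, hc⟩ := sq_sqfree _ P rfl hsq (a * t) hpos
    have hct : IsCoprime P t := ⟨s, rep T, by rw [← hst]; ring⟩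
    refine ⟨c, ?_, ?_⟩
    · obtain ⟨k, hk⟩ := hc
      have h1 : IsCoprime P (a * t) := ha.mul_right hct
      have h2 : c ^ 2 = a * t + P * (-k) := by
        have : a * t = c ^ 2 + P * k := by rw [← hk]; ring
        rw [this]
        ring
      have h3 : IsCoprime P (c ^ 2) := by
        rw [h2]
        exact IsCoprime.add_mul_left_right h1 _
      exact (IsCoprime.pow_right_iff (by norm_num)).1 h3
    · obtain ⟨k, hk⟩ := hc
      refine ⟨a * s + rep T * k, ?_⟩
      have h1 : c ^ 2 = a * t - P * k := by rw [← hk]; ring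
      rw [h1]
      have h2 : a = a * (s * P + t * rep T) := by rw [hst, mul_one]
      calc a - rep T * (a * t - P * k) = a * (s * P + t * rep T) - rep T * (a * t - P * k) := by
            rw [← h2]
        _ = P * (a * s + rep T * k) := by ring

end Pool.Agent.Q58.EB
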