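import Pool.Agent.Q51.EB.Stm

/-!
# Project EB, jobs EV and RP: values at local and global points
-/

set_option autoImplicit false
set_option linter.unusedSectionVars false

namespace Pool.Agent.Q58.EB

open Polynomial Finset Pool.Agent.Q51.EL Pool.Agent.Q51.EB

section general

variable {F : Type} [Field F]

theorem norm_sub_gen (P : F[X]) (hP : P ≠ 0) (c : F) :
    P.leadingCoeff * Algebra.norm F (AdjoinRoot.mk P (C c - X)) = P.eval c := by
  set pb := AdjoinRoot.powerBasis hP with hpb
  have : Module.Finite F (AdjoinRoot P) := pb.finite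
  have : Module.Free F (AdjoinRoot P) := Module.Free.of_basis pb.basis
  have h1 : (Algebra.lmul F (AdjoinRoot P) pb.gen).charpoly = minpoly F pb.gen := by
    rw [← charpoly_leftMulMatrix pb, Algebra.leftMulMatrix_apply, LinearMap.charpoly_toMatrix]
  have h2 := LinearMap.eval_charpoly (f := (Algebra.lmul F (AdjoinRoot P) pb.gen)) c
  have hgen : pb.gen = AdjoinRoot.root P := AdjoinRoot.powerBasis_gen hP
  rw [h1, hgen, AdjoinRoot.minpoly_root hP] at h2
  rw [Algebra.norm_apply]
  have h3 : (Algebra.lmul F (AdjoinRoot P)) (AdjoinRoot.mk P (C c - X)) =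
      algebraMap F (Module.End F (AdjoinRoot P)) c -
        (Algebra.lmul F (AdjoinRoot P)) (AdjoinRoot.root P) := by
    rw [map_sub, map_sub, AdjoinRoot.mk_X, AdjoinRoot.mk_C]
    congr 1
    rw [← AdjoinRoot.algebraMap_eq, AlgHom.commutes]
  have hlc : P.leadingCoeff ≠ 0 := leadingCoeff_ne_zero.2 hP
  rw [h3, ← h2, eval_mul, eval_C]
  field_simp

theorem norm_C (P : F[X]) (hP : P ≠ 0) (c : F) :
    Algebra.norm F (AdjoinRoot.mk P (C c)) = c ^ P.natDegree := by
  rw [AdjoinRoot.mk_C, ← AdjoinRoot.algebraMap_eq, Algebra.norm_algebraMap_of_basis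
    (AdjoinRoot.powerBasis hP).basis]
  rw [Fintype.card_fin, AdjoinRoot.powerBasis_dim]

/-- the norm of `1 + (u - 1) e`, `e` an idempotent of rank one -/
theorem norm_one_add (g : F[X]) (r u : F) (hg : g.eval r ≠ 0) :
    Algebra.norm F (AdjoinRoot.mk ((X - C r) * g) (1 + C (u - 1) * (C (g.eval r)⁻¹ * g))) = u := by
  have hg0 : g ≠ 0 := by
    rintro rfl
    simp at hg
  have hP : (X - C r) * g ≠ 0 := mul_ne_zero (X_sub_C_ne_zero r) hg0
  have hfin : Module.Finite F (AdjoinRoot ((X - C r) * g)) := (AdjoinRoot.powerBasis hP).finite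
  have hfree : Module.Free F (AdjoinRoot ((X - C r) * g)) :=
    Module.Free.of_basis (AdjoinRoot.powerBasis hP).basis
  have hr : eval₂ ((Algebra.ofId F F : F →ₐ[F] F) : F →+* F) r ((X - C r) * g) = 0 := by
    simp [eval₂_mul]
  set ev : AdjoinRoot ((X - C r) * g) →ₐ[F] F :=
    AdjoinRoot.liftAlgHom ((X - C r) * g) (Algebra.ofId F F) r hr with hev
  have hevmk : ∀ q : F[X], ev (AdjoinRoot.mk _ q) = q.eval r := by
    intro q
    rw [hev, AdjoinRoot.liftAlgHom_mk]
    exact (eval₂_eq_eval_map _).trans (by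
      congr 1
      exact Polynomial.map_id)
  set e : F[X] := C (g.eval r)⁻¹ * g with he
  have hee : e.eval r = 1 := by
    rw [he, eval_mul, eval_C, inv_mul_cancel₀ hg]
  have hmul : ∀ q : F[X], AdjoinRoot.mk ((X - C r) * g) (e * q) =
      AdjoinRoot.mk ((X - C r) * g) (C (q.eval r) * e) := by
    intro q
    rw [AdjoinRoot.mk_eq_mk]
    have h1 : X - C r ∣ q - C (q.eval r) := X_sub_C_dvd_sub_C_eval
    obtain ⟨k, hk⟩ := h1
    refine ⟨C (g.eval r)⁻¹ * k, ?_⟩
    have h2 : e * q - C (q.eval r) * e = e * (q - C (q.eval r)) := by ring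
    rw [h2, hk, he]
    ring
  have hlin : Algebra.lmul F (AdjoinRoot ((X - C r) * g))
      (AdjoinRoot.mk ((X - C r) * g) (1 + C (u - 1) * e)) =
      LinearMap.transvection ((u - 1) • ev.toLinearMap) (AdjoinRoot.mk ((X - C r) * g) e) := by
    ext z
    induction z using AdjoinRoot.induction_on with
    | ih q =>
      rw [LinearMap.transvection.apply]
      simp only [Algebra.coe_lmul_eq_mul, LinearMap.mul_apply', LinearMap.smul_apply,
        AlgHom.toLinearMap_apply, hevmk, smul_eq_mul]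
      rw [map_add, map_one, add_mul, one_mul, map_mul, mul_assoc, ← map_mul _ e q, hmul,
        map_mul, AdjoinRoot.mk_C, AdjoinRoot.mk_C, ← AdjoinRoot.algebraMap_eq,
        ← Algebra.smul_def, ← Algebra.smul_def, smul_smul]
  rw [Algebra.norm_apply, hlin, LinearMap.transvection.det]
  simp only [LinearMap.smul_apply, AlgHom.toLinearMap_apply, hevmk, hee, smul_eq_mul, mul_one]
  ring

theorem norm_ne_zero_of_coprime (P : F[X]) (a : F[X]) (h : IsCoprime P a) :
    Algebra.norm F (AdjoinRoot.mk P a) ≠ 0 := by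
  obtain ⟨s, t, hst⟩ := h
  have h1 : AdjoinRoot.mk P t * AdjoinRoot.mk P a = 1 := by
    rw [← map_mul, ← map_one (AdjoinRoot.mk P), AdjoinRoot.mk_eq_mk, ← hst]
    exact ⟨-s, by ring⟩
  have h2 := congrArg (Algebra.norm F) h1
  rw [map_mul, map_one] at h2
  exact right_ne_zero_of_mul (by rw [h2]; exact one_ne_zero)

end general

section hom

variable {F : Type} [Field F] [CharZero F]

theorem up_ne_zero {f : ℤ[X]} (hf : f ≠ 0) : up f F ≠ 0 := by
  intro h
  apply hf
  exact (Polynomial.map_injective _ (RingHom.injective_int (Int.castRingHom F)))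
    (by rw [Polynomial.map_zero]; exact h)

theorem up_deg (f : ℤ[X]) : (up f F).natDegree = f.natDegree :=
  natDegree_map_eq_of_injective (RingHom.injective_int (Int.castRingHom F)) _

theorem up_lc (f : ℤ[X]) : (up f F).leadingCoeff = (f.leadingCoeff : F) := by
  rw [leadingCoeff_map_of_injective (RingHom.injective_int (Int.castRingHom F)), eq_intCast]

theorem hom_eq (f : ℤ[X]) (x w : F) (hw : w ≠ 0) :
    hom f x w = w ^ f.natDegree * (up f F).eval (x / w) := by
  rw [eval_eq_sum_range, up_deg, hom, Finset.mul_sum]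
  refine Finset.sum_congr rfl fun i hi => ?_
  have hi' : i ≤ f.natDegree := Nat.lt_succ_iff.1 (Finset.mem_range.1 hi)
  rw [coeff_map, div_pow, eq_intCast]
  have h : w ^ f.natDegree = w ^ (f.natDegree - i) * w ^ i := by
    rw [← pow_add, Nat.sub_add_cancel hi']
  rw [h]
  field_simp

theorem hom_zero' (f : ℤ[X]) (x : F) : hom f x 0 = f.leadingCoeff * x ^ f.natDegree := by
  rw [hom, Finset.sum_eq_single f.natDegree]
  · simp
  · intro i hi hne
    have hi' : i ≤ f.natDegree := Nat.lt_succ_iff.1 (Finset.mem_range.1 hi)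
    rw [zero_pow (by omega), mul_zero]
  · intro h
    exact absurd (Finset.mem_range.2 (Nat.lt_succ_self _)) h

theorem norm_lin {f : ℤ[X]} (hf : f ≠ 0) (x w : F) :
    (f.leadingCoeff : F) * Algebra.norm F (AdjoinRoot.mk (up f F) (C x - C w * X)) =
      hom f x w := by
  have h0 := up_ne_zero (F := F) hf
  by_cases hw : w = 0
  · subst hw
    rw [hom_zero', C_0, zero_mul, sub_zero, norm_C _ h0, up_deg]
  · have h1 : (C x - C w * X : F[X]) = C w * (C (x / w) - X) := by
      rw [mul_sub, ← C_mul, mul_div_cancel₀ _ hw]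
    rw [h1, map_mul, map_mul, norm_C _ h0, up_deg, hom_eq f x w hw, ← norm_sub_gen _ h0, up_lc]
    ring

/-- a point of the curve has a value -/
theorem val_of_pt {f : ℤ[X]} (hf : f ≠ 0) (hsep : (up f F).Separable) {D : ℤ} (hD : D ≠ 0)
    (hp : CurvePt f D F) : ∃ a, Val f D F a := by
  obtain ⟨x, w, y, hxw, hy⟩ := hp
  have hlc : (f.leadingCoeff : F) ≠ 0 := by
    exact_mod_cast leadingCoeff_ne_zero.2 hf
  have hD' : (D : F) ≠ 0 := by exact_mod_cast hD
  by_cases hc : IsCoprime (up f F) (C x - C w * X)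
  · refine ⟨C x - C w * X, x, w, y, hxw, hy, hc, by rw [sub_self, mul_zero]; exact dvd_zero _, ?_⟩
    refine ⟨D * y, ?_⟩
    push_cast
    rw [mul_assoc, norm_lin hf, ← hy]
    ring
  · have hw : w ≠ 0 := by
      rintro rfl
      apply hc
      have hx : x ≠ 0 := by simpa using hxw
      rw [C_0, zero_mul, sub_zero]
      exact ⟨0, C x⁻¹, by rw [zero_mul, zero_add, ← C_mul, inv_mul_cancel₀ hx, C_1]⟩
    set r : F := x / w with hr
    have hlin : (C x - C w * X : F[X]) = -(C w) * (X - C r) := by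
      have : (C x : F[X]) = C w * C r := by
        rw [← C_mul, hr, mul_div_cancel₀ _ hw]
      rw [this]
      ring
    have hdvd : X - C r ∣ up f F := by
      by_contra hnd
      apply hc
      have h1 : IsCoprime (X - C r) (up f F) :=
        (irreducible_X_sub_C r).coprime_iff_not_dvd.2 hnd
      rw [hlin]
      refine IsCoprime.mul_right ?_ h1.symm
      exact ⟨0, -C w⁻¹, by
        rw [zero_mul, zero_add, neg_mul_neg, ← C_mul, inv_mul_cancel₀ hw, C_1]⟩
    obtain ⟨g, hg⟩ := hdvd
    have hcop : IsCoprime (X - C r) g := by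
      rw [hg] at hsep
      exact hsep.isCoprime
    have hgr : g.eval r ≠ 0 := by
      intro h0
      have h1 : X - C r ∣ g := dvd_iff_isRoot.2 h0
      exact ((irreducible_X_sub_C r).coprime_iff_not_dvd.1 hcop) h1
    set e : F[X] := C (g.eval r)⁻¹ * g with he
    have hgC : IsCoprime g (-(C w : F[X])) := ⟨0, -C w⁻¹, by
        rw [zero_mul, zero_add, neg_mul_neg, ← C_mul, inv_mul_cancel₀ hw, C_1]⟩
    -- the first element
    set a₁ : F[X] := (C x - C w * X) + e with ha₁
    have hev1 : a₁.eval r = 1 := by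
      rw [ha₁, hlin, he]
      simp [inv_mul_cancel₀ hgr]
    have hcr : ∀ q : F[X], q.eval r ≠ 0 → IsCoprime (X - C r) q := by
      intro q hq
      rw [(irreducible_X_sub_C r).coprime_iff_not_dvd, dvd_iff_isRoot]
      exact hq
    have hcop1 : IsCoprime (up f F) a₁ := by
      rw [hg]
      refine IsCoprime.mul_left (hcr _ (by rw [hev1]; exact one_ne_zero)) ?_
      have h1 : IsCoprime g (-(C w) * (X - C r)) := IsCoprime.mul_right hgC hcop.symm
      rw [ha₁, hlin, he]
      exact IsCoprime.add_mul_right_right h1 _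
    set κ : F := Algebra.norm F (AdjoinRoot.mk (up f F) a₁) with hκ
    have hκ0 : κ ≠ 0 := norm_ne_zero_of_coprime _ _ hcop1
    set u : F := ((D * f.leadingCoeff : ℤ) : F) * κ with hu
    have hu0 : u ≠ 0 := by
      rw [hu]
      push_cast
      exact mul_ne_zero (mul_ne_zero hD' hlc) hκ0
    set b : F[X] := 1 + C (u - 1) * e with hb
    have hevb : b.eval r = u := by
      rw [hb, he]
      simp [inv_mul_cancel₀ hgr]
    have hcopb : IsCoprime (up f F) b := by
      rw [hg]
      refine IsCoprime.mul_left (hcr _ (by rw [hevb]; exact hu0)) ?_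
      rw [hb, he, ← mul_assoc]
      exact IsCoprime.add_mul_right_right isCoprime_one_right _
    have hnb : Algebra.norm F (AdjoinRoot.mk (up f F) b) = u := by
      rw [hg, hb, he]
      exact norm_one_add g r u hgr
    refine ⟨a₁ * b, x, w, y, hxw, hy, hcop1.mul_right hcopb, ?_, ?_⟩
    · have h1 : a₁ * b - (C x - C w * X) = g * (C (g.eval r)⁻¹ * (b + C (u - 1) *
          (C x - C w * X))) := by
        rw [ha₁, hb, he]
        ring
      rw [h1, hlin, hg]
      exact ⟨-C w * (C (g.eval r)⁻¹ * (b + C (u - 1) * (-C w * (X - C r)))), by ring⟩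
    · rw [map_mul, map_mul, hnb, ← hκ, ← mul_assoc, ← hu]
      exact ⟨u, rfl⟩

end hom

theorem ev (h1 : S_BC) : S_EV := by
  intro f hf _ D hD
  have hf0 : f ≠ 0 := by
    rintro rfl
    rw [Polynomial.map_zero] at hf
    exact not_irreducible_zero hf
  constructor
  · rintro ⟨hre, hp⟩
    obtain ⟨a, ha⟩ := val_of_pt hf0 (h1 f hf ℝ 1).2.2.2.1 hD hre
    have hpa : ∀ p : Nat.Primes, ∃ b, Val f D ℚ_[(p : ℕ)] b := by
      intro p
      have : Fact (p : ℕ).Prime := ⟨p.2⟩
      exact val_of_pt hf0 (h1 f hf ℚ_[(p : ℕ)] 1).2.2.2.1 hD (hp p)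
    choose b hb using hpa
    exact ⟨⟨a, ha, b, hb⟩⟩
  · rintro ⟨P⟩
    refine ⟨?_, ?_⟩
    · obtain ⟨x, w, y, h1, h2, _⟩ := P.hre
      exact ⟨x, w, y, h1, h2⟩
    · intro p hp
      obtain ⟨x, w, y, h1, h2, _⟩ := P.hpa ⟨p, hp.out⟩
      exact ⟨x, w, y, h1, h2⟩

theorem hom_cast (f : ℤ[X]) (x w : ℚ) (F : Type) [Field F] [CharZero F] :
    hom f (x : F) (w : F) = ((hom f x w : ℚ) : F) := by
  unfold hom
  push_cast
  rfl

theorem rp (h1 : S_PFC) (h2 : S_BC) : S_RP := by
  intro f hf hdeg D hD hpt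
  have hf0 : f ≠ 0 := by
    rintro rfl
    rw [Polynomial.map_zero] at hf
    exact not_irreducible_zero hf
  obtain ⟨x, w, y, hxw, hy⟩ := hpt
  set a : ℚ[X] := C x - C w * X with ha
  have ha0 : a ≠ 0 := by
    intro h
    have h3 := congrArg (fun q : ℚ[X] => q.coeff 0) h
    have h4 := congrArg (fun q : ℚ[X] => q.coeff 1) h
    simp only [ha, coeff_sub, coeff_C_zero, coeff_C_mul, coeff_X_zero, mul_zero, sub_zero,
      coeff_zero] at h3
    simp only [ha, coeff_sub, coeff_C_succ, coeff_C_mul, coeff_X_one, mul_one, zero_sub,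
      coeff_zero, neg_eq_zero] at h4
    rcases hxw with h5 | h5
    · exact h5 h3
    · exact h5 h4
  have hcop : IsCoprime (up f ℚ) a := by
    rw [hf.coprime_iff_not_dvd]
    intro hd
    have h3 := natDegree_le_of_dvd hd ha0
    have h4 : a.natDegree ≤ 1 := by
      rw [ha]
      refine (natDegree_sub_le _ _).trans (max_le ?_ ?_)
      · rw [natDegree_C]
        exact Nat.zero_le _
      · exact (natDegree_C_mul_le w X).trans natDegree_X_le
    have h5 : (up f ℚ).natDegree = f.natDegree := up_deg f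
    rw [h5] at h3
    omega
  have hval : ∀ (F : Type) [Field F] [CharZero F], Val f D F (a.map (Rat.castHom F)) := by
    intro F _ _
    have h3 := h2 f hf F a
    have e1 : a.map (Rat.castHom F) = C (x : F) - C (w : F) * X := by
      rw [ha]
      simp
    refine ⟨(x : F), (w : F), (y : F), ?_, ?_, h3.2.2.1 hcop, ?_, ?_⟩
    · rcases hxw with h4 | h4
      · left
        exact_mod_cast h4
      · right
        exact_mod_cast h4
    · rw [hom_cast, ← hy]
      push_cast
      rfl
    · rw [e1, sub_self, mul_zero]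
      exact dvd_zero _
    · rw [h3.1]
      refine ⟨((D * y : ℚ) : F), ?_⟩
      have h4 := norm_lin (F := ℚ) hf0 x w
      have h5 : ((D * f.leadingCoeff : ℤ) : ℚ) *
          Algebra.norm ℚ (AdjoinRoot.mk (up f ℚ) a) = (D * y) * (D * y) := by
        push_cast
        rw [mul_assoc, ha, h4, ← hy]
        ring
      have h6 := congrArg (fun q : ℚ => (q : F)) h5
      push_cast at h6 ⊢
      exact h6
  refine ⟨⟨a.map (Rat.castHom ℝ), hval ℝ, fun p => a.map (Rat.castHom ℚ_[(p : ℕ)]),
    fun p => hval ℚ_[(p : ℕ)]⟩, ?_⟩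
  intro ε hε
  have h3 := h1 f hf a ε hcop hε.1
  have e2 : ∀ P : AVal f D, P = ⟨a.map (Rat.castHom ℝ), hval ℝ,
      fun p => a.map (Rat.castHom ℚ_[(p : ℕ)]), fun p => hval ℚ_[(p : ℕ)]⟩ →
      ramA P ε = ramG f a ε := by
    rintro P rfl
    rfl
  rw [e2 _ rfl]
  exact h3

end Pool.Agent.Q58.EB
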