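import Pool.Agent.Q51.EB.Stm
import Pool.Agent.Q239.EL.DESC
import Pool.Agent.Q91.EL.Small

/-!
# Project EB, job GD: comparison of the invariants at a good place
-/

set_option autoImplicit false
set_option linter.unusedSectionVars false

namespace Pool.Agent.Q58.EB

open Polynomial NumberField IsDedekindDomain Finset Pool.Agent.Q51.EL Pool.Agent.Q51.EB
open Pool.Agent.Q239.EL (mu mu_l val_int par_mul theta_surj nat_coe span_ne)

section

variable {L : Type} [Field L] [NumberField L] {f : ℤ[X]} {θ : L}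

theorem root_up (hs : Setup f L θ) : aeval θ (up f ℚ) = 0 := by
  rw [← hs.root]
  exact aeval_map_algebraMap ℚ θ f

/-- coprime to `f` iff nonzero at `θ` -/
theorem copr_iff (hs : Setup f L θ) (a : ℚ[X]) : IsCoprime (up f ℚ) a ↔ aeval θ a ≠ 0 := by
  have hroot := root_up hs
  constructor
  · rintro ⟨u, w, h⟩ h0
    have := congrArg (aeval θ) h
    rw [map_add, map_mul, map_mul, hroot, h0] at this
    simp at this
  · intro h0
    rw [hs.irr.coprime_iff_not_dvd]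
    rintro ⟨q, rfl⟩
    exact h0 (by rw [map_mul, hroot, zero_mul])

theorem dvd_of_aeval (hs : Setup f L θ) {a : ℚ[X]} (h : aeval θ a = 0) : up f ℚ ∣ a := by
  by_contra hcon
  have h1 : IsCoprime (up f ℚ) a := hs.irr.coprime_iff_not_dvd.2 hcon
  exact (copr_iff hs a).1 h1 h

theorem up_map (F : Type) [Field F] [CharZero F] :
    (up f ℚ).map (Rat.castHom F) = up f F := by
  rw [up, Polynomial.map_map]
  congr 1
  exact RingHom.ext_int _ _

theorem up_dvd_map (F : Type) [Field F] [CharZero F] {a : ℚ[X]} (h : up f ℚ ∣ a) :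
    up f F ∣ a.map (Rat.castHom F) := by
  have := Polynomial.map_dvd (Rat.castHom F) h
  rwa [up_map] at this

theorem val_l {l : ℕ} [hl : Fact l.Prime] (hsq : Squarefree (Ideal.span {(l : 𝓞 L)}))
    {v : HeightOneSpectrum (𝓞 L)} (hv : Abv v l) : v.valuation L (l : L) = WithZero.exp (-1 : ℤ) := by
  have hl0 : (l : 𝓞 L) ≠ 0 := by exact_mod_cast hl.out.ne_zero
  have h1 := val_int v hl0
  rw [nat_coe] at h1
  rw [h1, mu_l hsq hv]
  simp

end

theorem gd (h1 : S_CT) (h2 : S_NRM) (h3 : S_CORP) (h4 : S_BIL) (h5 : S_BC) : S_GD := by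
  intro f L _ _ θ hs
  obtain ⟨B0, hB0, hct⟩ := h1 f L θ hs
  obtain ⟨⟨B1, hB1, hram⟩, -⟩ := Pool.Agent.Q91.EL.ram L
  refine ⟨B0 * B1, mul_ne_zero hB0 hB1, ?_⟩
  intro l hl hlB a β ε s hpat ha hβ hε hv
  have hl0 : ¬ l ∣ B0 := fun h => hlB (Dvd.dvd.mul_right h _)
  have hl1 : ¬ l ∣ B1 := fun h => hlB (Dvd.dvd.mul_left h _)
  have hsqf := hram l hl.out hl1
  obtain ⟨α, c, e, hα, hc, hac, hpar⟩ := hpat
  have hαθ : aeval θ α ≠ 0 := (copr_iff hs α).1 hα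
  have hlL : (l : L) ≠ 0 := by exact_mod_cast hl.out.ne_zero
  -- `x = α β l ^ e` has even valuations
  set x : L := aeval θ α * aeval θ β * (l : L) ^ e with hx
  have hx0 : x ≠ 0 := mul_ne_zero (mul_ne_zero hαθ hβ) (zpow_ne_zero _ hlL)
  have hxpar : ∀ v : HeightOneSpectrum (𝓞 L), Abv v l → Par v x ((0 : ℕ) : ℤ) := by
    intro v hvl
    obtain ⟨k, hk⟩ := hpar v hvl
    obtain ⟨⟨k', hk'⟩, -⟩ := hv v hvl
    refine ⟨s v + k + k', ?_⟩
    rw [hx, map_mul, map_mul, map_zpow₀, hk, hk', val_l hsqf hvl, ← WithZero.exp_add,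
      ← WithZero.exp_zsmul, ← WithZero.exp_add]
    congr 1
    push_cast
    simp only [smul_eq_mul]
    ring
  obtain ⟨η, γ0, hη, hγ0, hγv⟩ := h2 L l hl.out x hx0 (fun _ => 0) hxpar
  obtain ⟨h, hh⟩ := theta_surj hs η
  obtain ⟨γ, hγ⟩ := theta_surj hs (γ0 : L)
  have hγθ : aeval θ γ ≠ 0 := by
    rw [hγ, hγ0]
    exact mul_ne_zero hx0 (pow_ne_zero 2 hη)
  have hhθ : aeval θ h ≠ 0 := by rw [hh]; exact hη
  -- the fields
  obtain ⟨-, -, -, hsep, hdeg⟩ := h5 f hs.irr ℚ_[l] 1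
  have hcop : ∀ g : ℚ[X], aeval θ g ≠ 0 → IsCoprime (up f ℚ_[l]) (g.map (Rat.castHom ℚ_[l])) :=
    fun g hg => (h5 f hs.irr ℚ_[l] g).2.2.1 ((copr_iff hs g).2 hg)
  have hpos : 1 ≤ (up f ℚ_[l]).natDegree := by
    rw [hdeg]
    have h6 := hs.irr.natDegree_pos
    have h7 := (h5 f hs.irr ℚ 1).2.2.2.2
    rw [← h7]
    exact h6
  have hinf : Infinite ℚ_[l] := inferInstance
  obtain ⟨c1, c2, c3, -⟩ := h3 ℚ_[l] (h4.2 l) (up f ℚ_[l]) hsep hpos
  set m := fun g : ℚ[X] => g.map (Rat.castHom ℚ_[l]) with hm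
  have hεθ : aeval θ ε ≠ 0 := (copr_iff hs ε).1 hε.1
  have hNε : IsSquare (Algebra.norm ℚ_[l] (AdjoinRoot.mk (up f ℚ_[l]) (m ε))) := by
    rw [(h5 f hs.irr ℚ_[l] ε).1]
    obtain ⟨r, hr⟩ := hε.2
    exact ⟨(r : ℚ_[l]), by rw [hr]; push_cast; ring⟩
  have hlne : ((l : ℚ_[l]) ^ e) ≠ 0 := zpow_ne_zero _ (by exact_mod_cast hl.out.ne_zero)
  have hone : IsCoprime (up f ℚ_[l]) 1 := isCoprime_one_right
  -- step 1
  have e1 : cor (up f ℚ_[l]) a (m ε) = cor (up f ℚ_[l]) (m α) (m ε) := by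
    rw [c1 a (m α * c ^ 2) (m ε) (m ε * 1 ^ 2) hac (by simp)]
    exact c2 _ _ _ _ (hcop α hαθ) (hcop ε hεθ) hc hone
  -- step 2
  have e2 : cor (up f ℚ_[l]) (m α * (m (β * h)) ^ 2) (m ε) = cor (up f ℚ_[l]) (m α) (m ε) := by
    rw [c1 (m α * (m (β * h)) ^ 2) (m α * (m (β * h)) ^ 2) (m ε) (m ε * 1 ^ 2) (by simp) (by simp)]
    refine c2 _ _ _ _ (hcop α hαθ) (hcop ε hεθ) (hcop (β * h) ?_) hone
    rw [map_mul]
    exact mul_ne_zero hβ hhθ
  -- step 3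
  have e3 : cor (up f ℚ_[l]) (C ((l : ℚ_[l]) ^ e) * (m α * (m (β * h)) ^ 2)) (m ε) =
      cor (up f ℚ_[l]) (m α * (m (β * h)) ^ 2) (m ε) := by
    refine c3 _ _ _ hlne ?_ (hcop ε hεθ) hNε
    have : m α * (m (β * h)) ^ 2 = m (α * (β * h) ^ 2) := by
      simp only [hm, Polynomial.map_mul, Polynomial.map_pow]
    rw [this]
    apply hcop
    rw [map_mul, map_pow, map_mul]
    exact mul_ne_zero hαθ (pow_ne_zero 2 (mul_ne_zero hβ hhθ))
  -- step 4
  have e4 : cor (up f ℚ_[l]) (C ((l : ℚ_[l]) ^ e) * (m α * (m (β * h)) ^ 2)) (m ε) =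
      cor (up f ℚ_[l]) (m (β * γ)) (m ε) := by
    refine c1 _ _ _ _ ?_ (by simp)
    have h8 : C ((l : ℚ_[l]) ^ e) * (m α * (m (β * h)) ^ 2) - m (β * γ) =
        m (C ((l : ℚ) ^ e) * (α * (β * h) ^ 2) - β * γ) := by
      simp only [hm, Polynomial.map_mul, Polynomial.map_pow, Polynomial.map_sub, Polynomial.map_C]
      congr 3
      simp
    rw [h8]
    apply up_dvd_map
    apply dvd_of_aeval hs
    rw [map_sub, map_mul, map_mul, map_mul, map_pow, map_mul, hγ, hγ0, hh, aeval_C, map_zpow₀,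
      map_natCast, hx]
    ring
  have e5 := hct l hl0 β γ ε ∅ hβ hε (by simp) (by
    intro v hvl
    refine ⟨?_, by simp, fun _ => (hv v hvl).2⟩
    rw [hγ, hγv v hvl]
    simp)
  rw [Finset.prod_empty] at e5
  have e6 : cor (up f ℚ_[l]) (m (β * γ)) (m ε) = cor (up f ℚ_[l]) (m β) (m ε) := by
    have h9 := eq_inv_of_mul_eq_one_left e5
    rw [Int.units_inv_eq_self] at h9
    exact h9
  rw [e1, ← e2, ← e3, e4, e6]

end Pool.Agent.Q58.EB
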